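import Mathlib

set_option autoImplicit false

namespace Pool.Agent.Results.MP_390115_co.Upper

/-- points of the universal ordered set: a label and a set of other labels -/
structure Pt (n : ℕ) where
  i : Fin n
  S : Finset (Fin n)
  h : i ∉ S

def Pt.lt {n : ℕ} (a b : Pt n) : Prop :=
  a.i < b.i ∧ a.i ∈ b.S ∧ b.i ∈ a.S ∧ (∀ k, k < a.i → k ∈ a.S → k ∈ b.S) ∧
    (∀ k, b.i < k → k ∈ b.S → k ∈ a.S)

theorem Pt.lt_trans {n : ℕ} {a b c : Pt n} (h : a.lt b) (k : b.lt c) : a.lt c :=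
  ⟨h.1.trans k.1, k.2.2.2.1 _ h.1 h.2.1, h.2.2.2.2 _ k.1 k.2.2.1,
    fun j j1 j2 => k.2.2.2.1 j (j1.trans h.1) (h.2.2.2.1 j j1 j2),
    fun j j1 j2 => h.2.2.2.2 j (k.1.trans j1) (k.2.2.2.2 j j1 j2)⟩

@[reducible] def ord (n : ℕ) : PartialOrder (Pt n) where
  le a b := a = b ∨ a.lt b
  le_refl _ := Or.inl rfl
  le_trans := by
    rintro a b c (rfl | h) (rfl | k)
    · exact Or.inl rfl
    · exact Or.inr k
    · exact Or.inr h
    · exact Or.inr (Pt.lt_trans h k)
  le_antisymm := by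
    rintro a b (h | h) (k | k)
    · exact h
    · exact h
    · exact k.symm
    · exact absurd h.1 (lt_asymm k.1)

def toSig {n : ℕ} (a : Pt n) : Σ i : Fin n, ((Finset.univ.erase i).powerset : Finset _) :=
  ⟨a.i, a.S, by
    rw [Finset.mem_powerset]
    intro k hk
    simp only [Finset.mem_erase, Finset.mem_univ, and_true]
    rintro rfl
    exact a.h hk⟩

theorem toSig_inj {n : ℕ} : Function.Injective (toSig (n := n)) := by
  rintro ⟨i, S, h⟩ ⟨j, T, k⟩ e
  obtain rfl : i = j := congrArg Sigma.fst e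
  have : S = T := by
    simpa [toSig] using e
  subst this
  rfl

theorem result (n : ℕ) : ∃ (P : Type) (_ : Fintype P) (_ : PartialOrder P),
    Fintype.card P ≤ n * 2 ^ (n - 1) ∧
    ∀ (Q : Type) [Fintype Q] [PartialOrder Q], Fintype.card Q ≤ n →
      ∃ e : Q ↪o P, ∀ x y : Q, x ⋖ y → e x ⋖ e y := by
  classical
  let _ := ord n
  let _ : Fintype (Pt n) := Fintype.ofInjective _ toSig_inj
  refine ⟨Pt n, inferInstance, ord n, (Fintype.card_le_of_injective _ toSig_inj).trans ?_, ?_⟩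
  · rw [Fintype.card_sigma]
    simp only [Fintype.card_coe, Finset.card_powerset]
    simp
  intro Q _ _ hQ
  obtain ⟨l, l1, l2⟩ : ∃ l : Q → Fin n, Function.Injective l ∧ ∀ x y, x < y → l x < l y := by
    let _ : Fintype (LinearExtension Q) := inferInstanceAs (Fintype Q)
    let o := (monoEquivOfFin (LinearExtension Q) (k := Fintype.card Q) rfl).symm
    refine ⟨fun x => Fin.castLE hQ (o (toLinearExtension x)), fun x y h => ?_, fun x y h => ?_⟩
    · exact o.injective (Fin.castLE_injective _ h)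
    · have h1 : o (toLinearExtension x) ≤ o (toLinearExtension y) :=
        o.monotone (toLinearExtension.monotone h.le)
      have h2 : o (toLinearExtension x) ≠ o (toLinearExtension y) := fun k => h.ne (o.injective k)
      exact lt_of_le_of_ne h1 (fun k => h2 (Fin.castLE_injective hQ k))
  let f : Q → Pt n := fun x => ⟨l x, (Finset.univ.filter fun y => y < x ∨ x < y).image l, by
    simp only [Finset.mem_image, Finset.mem_filter, Finset.mem_univ, true_and, not_exists, not_and]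
    intro y hy e
    rw [l1 e] at hy
    simp at hy⟩
  have mem : ∀ x k, k ∈ (f x).S ↔ ∃ y, (y < x ∨ x < y) ∧ l y = k := fun x k => by simp [f]
  have lo : ∀ x k, k < l x → k ∈ (f x).S → ∃ y, y < x ∧ l y = k := fun x k h1 h2 => by
    obtain ⟨y, h | h, rfl⟩ := (mem x k).1 h2
    · exact ⟨y, h, rfl⟩
    · exact absurd h1 (lt_asymm (l2 _ _ h))
  have hi : ∀ x k, l x < k → k ∈ (f x).S → ∃ y, x < y ∧ l y = k := fun x k h1 h2 => by
    obtain ⟨y, h | h, rfl⟩ := (mem x k).1 h2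
    · exact absurd h1 (lt_asymm (l2 _ _ h))
    · exact ⟨y, h, rfl⟩
  have flt : ∀ x y, (f x).lt (f y) ↔ x < y := fun x y => ⟨fun h => by
      obtain ⟨z, h1, h2⟩ := lo y _ h.1 h.2.1
      exact l1 h2 ▸ h1, fun h => ⟨l2 _ _ h, (mem _ _).2 ⟨x, Or.inl h, rfl⟩,
      (mem _ _).2 ⟨y, Or.inr h, rfl⟩, fun k k1 k2 => by
        obtain ⟨z, h1, h2⟩ := lo x k k1 k2
        exact (mem _ _).2 ⟨z, Or.inl (h1.trans h), h2⟩, fun k k1 k2 => by
        obtain ⟨z, h1, h2⟩ := hi y k k1 k2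
        exact (mem _ _).2 ⟨z, Or.inr (h.trans h1), h2⟩⟩⟩
  have ltP : ∀ a b : Pt n, a < b → a.lt b := fun a b h => h.le.resolve_left h.ne
  let e : Q ↪o Pt n := OrderEmbedding.ofMapLEIff f fun x y => ⟨by
      rintro (h | h)
      · exact (l1 (congrArg Pt.i h)).le
      · exact ((flt _ _).1 h).le, fun h => by
      rcases h.eq_or_lt with rfl | h
      · exact le_rfl
      · exact Or.inr ((flt _ _).2 h)⟩
  refine ⟨e, fun x y h => ⟨e.strictMono h.1, fun c h1 h2 => ?_⟩⟩
  have k1 := ltP _ _ h1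
  have k2 := ltP _ _ h2
  obtain ⟨z, z1, z2⟩ := hi x c.i k1.1 k1.2.2.1
  obtain ⟨w, w1, w2⟩ := lo y c.i k2.1 k2.2.1
  exact h.2 z1 (l1 (w2.trans z2.symm) ▸ w1)

end Pool.Agent.Results.MP_390115_co.Upper
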